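import Pool.Agent.N568.BK.DS3

/-!
# Words in depth one elements and the digitwise order

Let `AR b` be the linearized Ihara action of `x ^ (2 b)` on arrays of coefficients (starting library
`Pool.Agent.N568.BK`). If the binomial coefficients `binom (2 b) (2 a)` vanish in `R` for the
entries `2 a ≠ 2 b` then `AR b` only tests the first entry. So the matrix of the coefficients of the
words at the totally even monomials is triangular modulo `p` for words with increasing digit sums.
-/

set_option autoImplicit false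

namespace Run7.h102.DG

open Finset Pool.Agent.N568.BK

/-- the doubled list -/
def dbl (w : List ℕ) : List ℕ := w.map fun b => 2 * b

lemma dbl_length (w : List ℕ) : (dbl w).length = w.length := List.length_map ..

/-- The action at a monomial all of whose exponents `2 a` satisfy `binom (2 b) (2 a) = 0` or
`a = b`. -/
theorem AR_test {R : Type} [CommRing R] (b : ℕ) : ∀ (e : List ℕ) (g : List ℕ → R) (a : ℕ),
    (∀ x ∈ a :: e, x ≠ b → ((2 * b).choose (2 * x) : R) = 0) →
    AR b g (dbl (a :: e)) = if a = b then g (dbl e) else 0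
  | [], g, a, _ => by
      show (if 2 * a = 2 * b then g [] else 0) = _
      by_cases h : a = b
      · rw [if_pos (by omega), if_pos h]
        rfl
      · rw [if_neg (by omega), if_neg h]
  | a' :: e, g, a, h => by
      have ih := AR_test b e (fun e' => g (2 * a :: e')) a'
        (fun x hx => h x (List.mem_cons_of_mem _ hx))
      have h1 : AR b g (dbl (a :: a' :: e)) =
          AR b (fun e' => g (2 * a :: e')) (dbl (a' :: e)) +
          if 2 * b ≤ 2 * a + 2 * a' then
            ((-1) ^ (2 * a) * ((2 * b).choose (2 * a) : R) -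
              (-1) ^ (2 * a') * ((2 * b).choose (2 * a') : R)) *
              g ((2 * a + 2 * a' - 2 * b) :: dbl e)
          else 0 := rfl
      rw [h1, ih, pow_mul, pow_mul, neg_one_sq, one_pow, one_pow, one_mul, one_mul]
      have ha := h a (by simp)
      have ha' := h a' (by simp)
      by_cases h2 : a = b
      · by_cases h3 : a' = b
        · subst h2
          subst h3
          rw [if_pos rfl, if_pos rfl, if_pos (by omega), sub_self, zero_mul, add_zero]
          rfl
        · subst h2
          rw [if_neg h3, if_pos rfl, if_pos (by omega), ha' h3, Nat.choose_self, Nat.cast_one,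
            sub_zero, one_mul, zero_add]
          have : 2 * a + 2 * a' - 2 * a = 2 * a' := by omega
          rw [this]
          rfl
      · by_cases h3 : a' = b
        · subst h3
          rw [if_pos rfl, if_neg h2, if_pos (by omega), ha h2, Nat.choose_self, Nat.cast_one]
          have : 2 * a + 2 * a' - 2 * a' = 2 * a := by omega
          rw [this]
          ring
        · rw [if_neg h3, if_neg h2, ha h2, ha' h3, sub_zero, zero_mul, zero_add]
          split_ifs <;> rfl

/-- sorted lists -/
def Srt (σ : ℕ → ℕ) : List ℕ → Prop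
  | [] => True
  | a :: e => (∀ x ∈ e, σ a ≤ σ x) ∧ Srt σ e

/-- `Bef σ w' w`: the digit sums of `w'` are smaller than those of `w` at the first place where
the words differ -/
def Bef (σ : ℕ → ℕ) : List ℕ → List ℕ → Prop
  | [], _ => False
  | _ :: _, [] => False
  | a :: e, b :: w => σ a < σ b ∨ (a = b ∧ Bef σ e w)

section

variable {R : Type} [CommRing R] (T : Set ℕ) (σ : ℕ → ℕ)
  (hσ : ∀ a ∈ T, ∀ b ∈ T, a ≠ b → σ b ≤ σ a → ((2 * b).choose (2 * a) : R) = 0)

include hσ

/-- **Triangularity.** -/
theorem cR_tri : ∀ (w e : List ℕ), (∀ x ∈ w, x ∈ T) → (∀ x ∈ e, x ∈ T) → Srt σ e →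
    e.length = w.length → ¬ Bef σ e w → cR R w (dbl e) = if e = w then 1 else 0
  | [], e, _, _, _, h, _ => by
      have : e = [] := List.length_eq_zero_iff.mp h
      subst this
      rfl
  | b :: w, [], _, _, _, h, _ => by simp at h
  | b :: w, a :: e, hw, he, hs, hlen, hB => by
      have hab : σ b ≤ σ a := by
        by_contra h
        exact hB (Or.inl (not_le.mp h))
      have h1 : cR R (b :: w) (dbl (a :: e)) = AR b (cR R w) (dbl (a :: e)) := rfl
      rw [h1, AR_test b e (cR R w) a]
      · by_cases h : a = b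
        · subst h
          have hB' : ¬ Bef σ e w := fun h => hB (Or.inr ⟨rfl, h⟩)
          rw [if_pos rfl, cR_tri w e (fun x hx => hw x (List.mem_cons_of_mem _ hx))
            (fun x hx => he x (List.mem_cons_of_mem _ hx)) hs.2 (by simpa using hlen) hB']
          by_cases h : e = w
          · rw [if_pos h, if_pos (by rw [h])]
          · rw [if_neg h, if_neg (by simpa using h)]
        · rw [if_neg h, if_neg (fun h' => h (List.cons.inj h').1)]
      · intro x hx hxb
        have hxT : x ∈ T := he x hx
        have hbT : b ∈ T := hw b (by simp)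
        apply hσ x hxT b hbT hxb
        rcases List.mem_cons.mp hx with h | h
        · rw [h]
          exact hab
        · exact hab.trans (hs.1 x h)

end

/-- the order on the words of the same length by the digit sums (as a number) -/
lemma Bef.irrefl (σ : ℕ → ℕ) : ∀ w : List ℕ, ¬ Bef σ w w
  | [] => id
  | a :: w => by
      rintro (h | ⟨_, h⟩)
      · exact lt_irrefl _ h
      · exact Bef.irrefl σ w h

lemma Bef.trans {σ : ℕ → ℕ} : ∀ {u v w : List ℕ}, Bef σ u v → Bef σ v w → Bef σ u w
  | [], _, _, h, _ => h.elim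
  | _ :: _, [], _, h, _ => h.elim
  | _ :: _, _ :: _, [], _, h => h.elim
  | a :: u, b :: v, c :: w, h1, h2 => by
      rcases h1 with h1 | ⟨rfl, h1⟩
      · rcases h2 with h2 | ⟨rfl, _⟩
        · exact Or.inl (h1.trans h2)
        · exact Or.inl h1
      · rcases h2 with h2 | ⟨rfl, h2⟩
        · exact Or.inl h2
        · exact Or.inr ⟨rfl, Bef.trans h1 h2⟩

/-- A finite set of words has a member which is before no other member. -/
lemma exists_last (σ : ℕ → ℕ) (S : Finset (List ℕ)) (hS : S.Nonempty) :
    ∃ w ∈ S, ∀ w' ∈ S, ¬ Bef σ w w' := by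
  classical
  induction S using Finset.induction_on with
  | empty => exact absurd hS (by simp)
  | insert a s ha ih =>
    by_cases hs : s.Nonempty
    · obtain ⟨w, hw, h⟩ := ih hs
      by_cases h1 : Bef σ w a
      · refine ⟨a, mem_insert_self _ _, fun w' hw' => ?_⟩
        rcases mem_insert.mp hw' with h2 | h2
        · rw [h2]
          exact Bef.irrefl σ a
        · exact fun h3 => h w' h2 (h1.trans h3)
      · refine ⟨w, mem_insert_of_mem hw, fun w' hw' => ?_⟩
        rcases mem_insert.mp hw' with h2 | h2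
        · rw [h2]
          exact h1
        · exact h w' h2
    · rw [not_nonempty_iff_eq_empty] at hs
      subst hs
      exact ⟨a, mem_insert_self _ _, fun w' hw' => by
        have : w' = a := by simpa using hw'
        rw [this]
        exact Bef.irrefl σ a⟩

/-- independence over a commutative ring in which the binomial coefficients vanish -/
theorem indep_R {R : Type} [CommRing R] (T : Set ℕ) (σ : ℕ → ℕ)
    (hσ : ∀ a ∈ T, ∀ b ∈ T, a ≠ b → σ b ≤ σ a → ((2 * b).choose (2 * a) : R) = 0) (d : ℕ)
    (S : Finset (List ℕ)) (hS : ∀ w ∈ S, w.length = d ∧ (∀ x ∈ w, x ∈ T) ∧ Srt σ w)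
    (lam : List ℕ → R) (h : ∀ e ∈ S, ∑ w ∈ S, lam w * cR R w (dbl e) = 0) :
    ∀ w ∈ S, lam w = 0 := by
  classical
  by_contra hne
  push Not at hne
  obtain ⟨w0, hw0, h0⟩ := hne
  obtain ⟨w1, hw1, hlast⟩ := exists_last σ (S.filter fun w => lam w ≠ 0)
    ⟨w0, mem_filter.mpr ⟨hw0, h0⟩⟩
  rw [mem_filter] at hw1
  have h1 := h w1 hw1.1
  rw [sum_eq_single w1] at h1
  · rw [cR_tri T σ hσ w1 w1 (hS w1 hw1.1).2.1 (hS w1 hw1.1).2.1 (hS w1 hw1.1).2.2 rfl
      (Bef.irrefl σ w1), if_pos rfl, mul_one] at h1
    exact hw1.2 h1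
  · intro w hw hne
    by_cases h2 : lam w = 0
    · rw [h2, zero_mul]
    · rw [cR_tri T σ hσ w w1 (hS w hw).2.1 (hS w1 hw1.1).2.1 (hS w1 hw1.1).2.2
        (by rw [(hS w hw).1, (hS w1 hw1.1).1]) (hlast w (mem_filter.mpr ⟨hw, h2⟩)),
        if_neg (Ne.symm hne), mul_zero]
  · exact fun h => absurd hw1.1 h

/-- **Independence over the rational numbers**, from the vanishing modulo a prime. -/
theorem indep_Q (p : ℕ) (hp : p.Prime) (T : Set ℕ) (σ : ℕ → ℕ)
    (hσ : ∀ a ∈ T, ∀ b ∈ T, a ≠ b → σ b ≤ σ a → p ∣ (2 * b).choose (2 * a)) (d : ℕ)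
    (S : Finset (List ℕ)) (hS : ∀ w ∈ S, w.length = d ∧ (∀ x ∈ w, x ∈ T) ∧ Srt σ w)
    (lam : List ℕ → ℚ) (h : ∀ e ∈ S, ∑ w ∈ S, lam w * cR ℚ w (dbl e) = 0) :
    ∀ w ∈ S, lam w = 0 := by
  classical
  have : Fact p.Prime := ⟨hp⟩
  set M : Matrix S S ℤ := fun w' w => cR ℤ w'.1 (dbl w.1) with hM
  have hdet : M.det ≠ 0 := by
    intro h0
    have h1 : (Int.castRingHom (ZMod p)) M.det = 0 := by rw [h0, map_zero]
    rw [RingHom.map_det] at h1
    obtain ⟨v, hv0, hv⟩ := Matrix.exists_vecMul_eq_zero_iff.mpr h1
    apply hv0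
    set lam' : List ℕ → ZMod p := fun w => if hw : w ∈ S then v ⟨w, hw⟩ else 0 with hlam'
    have h2 := indep_R (R := ZMod p) T σ (fun a ha b hb hab hle => by
      have := hσ a ha b hb hab hle
      rwa [← ZMod.natCast_eq_zero_iff] at this) d S hS lam' (by
      intro e he
      have h3 := congrFun hv ⟨e, he⟩
      rw [Pi.zero_apply] at h3
      rw [← h3, ← Finset.sum_attach, Matrix.vecMul]
      unfold dotProduct
      rw [← Finset.attach_eq_univ]
      refine Finset.sum_congr rfl fun w' _ => ?_
      rw [hlam']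
      simp only
      rw [dif_pos w'.2]
      congr 1
      show _ = (Int.castRingHom (ZMod p)) (cR ℤ w'.1 (dbl e))
      rw [cR_map])
    funext w
    have h4 := h2 w.1 w.2
    rw [hlam'] at h4
    simp only at h4
    rwa [dif_pos w.2] at h4
  have hdet' : ((Int.castRingHom ℚ).mapMatrix M).det ≠ 0 := by
    rw [← RingHom.map_det]
    simpa using hdet
  have h3 := Matrix.eq_zero_of_vecMul_eq_zero hdet' (v := fun w => lam w.1) (by
    funext w
    have h4 := h w.1 w.2
    rw [← Finset.sum_attach] at h4
    rw [Matrix.vecMul, Pi.zero_apply]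
    refine Eq.trans ?_ h4
    unfold dotProduct
    rw [← Finset.attach_eq_univ]
    refine Finset.sum_congr rfl fun w' _ => ?_
    congr 1
    show (Int.castRingHom ℚ) (cR ℤ w'.1 (dbl w.1)) = _
    rw [cR_map (Int.castRingHom ℚ)])
  intro w hw
  exact congrFun h3 ⟨w, hw⟩

/-- **Digit sums.** If the digit sum of `a` in base `p` is at least that of `b` and `a ≠ b` then
`p` divides `binom b a`. -/
theorem dvd_choose (p : ℕ) (hp : p.Prime) (a b : ℕ) (hab : a ≠ b)
    (h : (p.digits b).sum ≤ (p.digits a).sum) : p ∣ b.choose a := by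
  have : Fact p.Prime := ⟨hp⟩
  rcases lt_or_gt_of_ne hab with h1 | h1
  · have h2 := sub_one_mul_padicValNat_choose_eq_sub_sum_digits (p := p) h1.le
    have h3 : 0 < (p.digits (b - a)).sum := by
      rw [Nat.pos_iff_ne_zero]
      intro h0
      have h4 : b - a ≠ 0 := by omega
      have h5 : ∀ x ∈ p.digits (b - a), x = 0 := List.sum_eq_zero_iff.mp h0
      have h6 : p.digits (b - a) ≠ [] := Nat.digits_ne_nil_iff_ne_zero.mpr h4
      exact Nat.getLast_digit_ne_zero p h4 (h5 _ (List.getLast_mem h6))
    have h5 : 0 < (p - 1) * padicValNat p (b.choose a) := by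
      rw [h2]
      omega
    have h6 : padicValNat p (b.choose a) ≠ 0 := by
      intro h0
      rw [h0, mul_zero] at h5
      exact lt_irrefl _ h5
    exact dvd_of_one_le_padicValNat (Nat.one_le_iff_ne_zero.mpr h6)
  · rw [Nat.choose_eq_zero_of_lt h1]
    exact dvd_zero p

end Run7.h102.DG
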