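import Pool.Agent.Run7.h102.DG.MainD

/-!
# Magnus: a coefficient of a nontrivial reduced word in `1 + X_i`
-/

set_option autoImplicit false

namespace Run7.h102.DG

open Finset Pool.Agent.H777R4.DM

variable {n : ℕ}

/-- adjacent letters are different -/
def SF : List (Fin n) → Prop
  | [] => True
  | [_] => True
  | i :: j :: U => i ≠ j ∧ SF (j :: U)

lemma SF.tail {i : Fin n} {U : List (Fin n)} (h : SF (i :: U)) : SF U := by
  cases U with
  | nil => trivial
  | cons j U => exact h.2

/-- the sign of a letter -/
def sg (ε : Bool) : ℚ := if ε then 1 else -1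

lemma sg_ne (ε : Bool) : sg ε ≠ 0 := by
  cases ε <;> norm_num [sg]

/-- the coefficients of the word in `1 + X_i` and `1 - X_i` -/
def vac : List (Fin n × Bool) → List (Fin n) → ℚ
  | [], U => if U = [] then 1 else 0
  | _ :: L, [] => vac L []
  | a :: L, j :: U => vac L (j :: U) + if j = a.1 then sg a.2 * vac L U else 0

/-- the structure of the coefficients -/
def Good (i : Fin n) (ε : Bool) (L : List (Fin n × Bool)) : Prop :=
  ∃ (k : ℕ) (g : List (Fin n) → ℚ) (U0 : List (Fin n)), 1 ≤ k ∧ g U0 ≠ 0 ∧ SF (i :: U0) ∧
    (∀ U, SF U → U0.length < U.length → g U = 0) ∧ (vac L [] = g []) ∧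
    ∀ j U, SF (j :: U) → vac L (j :: U) = g (j :: U) + if j = i then (k : ℚ) * sg ε * g U else 0

lemma good_step {i j : Fin n} {ε δ : Bool} {L : List (Fin n × Bool)}
    (h : Good j δ L) (hr : i = j → ε = δ) : Good i ε ((i, ε) :: L) := by
  obtain ⟨k, g, U0, hk, h0, hs, hl, hn, hf⟩ := h
  by_cases hij : i = j
  · subst hij
    have := hr rfl
    subst this
    refine ⟨k + 1, g, U0, by omega, h0, hs, hl, hn, ?_⟩
    intro j U hU
    have h1 : vac ((i, ε) :: L) (j :: U) = vac L (j :: U) + if j = i then sg ε * vac L U else 0 := rfl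
    rw [h1, hf j U hU]
    by_cases hji : j = i
    · subst hji
      rw [if_pos rfl, if_pos rfl, if_pos rfl]
      have h2 : vac L U = g U := by
        rcases U with _ | ⟨l, U⟩
        · exact hn
        · rw [hf l U hU.tail, if_neg (fun h => hU.1 h.symm), add_zero]
      rw [h2]
      push_cast
      ring
    · rw [if_neg hji, if_neg hji, if_neg hji, add_zero]
  · refine ⟨1, vac L, j :: U0, le_rfl, ?_, ⟨hij, hs⟩, ?_, rfl, ?_⟩
    · rw [hf j U0 hs, if_pos rfl, hl (j :: U0) hs (by simp), zero_add]
      exact mul_ne_zero (mul_ne_zero (by exact_mod_cast (by omega : k ≠ 0)) (sg_ne δ)) h0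
    · intro U hU hlen
      rcases U with _ | ⟨l, U⟩
      · simp at hlen
      · rw [hf l U hU, hl (l :: U) hU (by
          simp only [List.length_cons] at hlen ⊢
          omega), zero_add]
        by_cases h1 : l = j
        · rw [if_pos h1, hl U hU.tail (by
            simp only [List.length_cons] at hlen
            omega), mul_zero]
        · rw [if_neg h1]
    · intro l U _
      have h1 : vac ((i, ε) :: L) (l :: U) = vac L (l :: U) + if l = i then sg ε * vac L U else 0 := rfl
      rw [h1, Nat.cast_one, one_mul]

lemma good_red : ∀ (L : List (Fin n × Bool)) (i : Fin n) (ε : Bool),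
    FreeGroup.IsReduced ((i, ε) :: L) → Good i ε ((i, ε) :: L)
  | [], i, ε, _ => by
      refine ⟨1, fun U => if U = [] then 1 else 0, [], le_rfl, by simp, trivial, ?_, rfl, ?_⟩
      · intro U _ hU
        have : U ≠ [] := by
          rintro rfl
          simp at hU
        simp only [if_neg this]
      · intro j U _
        have h1 : vac [(i, ε)] (j :: U) = vac [] (j :: U) + if j = i then sg ε * vac [] U else 0 := rfl
        rw [h1]
        simp [vac]
  | (j, δ) :: L, i, ε, h => by
      unfold FreeGroup.IsReduced at h
      rw [List.isChain_cons_cons] at h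
      exact good_step (good_red L j δ h.2) h.1

/-- there is a coefficient different from zero -/
lemma exists_vac (L : List (Fin n × Bool)) (hL : L ≠ []) (hr : FreeGroup.IsReduced L) :
    ∃ U : List (Fin n), U ≠ [] ∧ SF U ∧ U.length ≤ L.length ∧ vac L U ≠ 0 := by
  have key : ∀ (L : List (Fin n × Bool)) (U : List (Fin n)), L.length < U.length → vac L U = 0 := by
    intro L
    induction L with
    | nil =>
      intro U hU
      have : U ≠ [] := by
        rintro rfl
        simp at hU
      show (if U = [] then (1 : ℚ) else 0) = 0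
      rw [if_neg this]
    | cons a L ih =>
      intro U hU
      rcases U with _ | ⟨j, U⟩
      · simp at hU
      · rw [List.length_cons, List.length_cons] at hU
        show vac L (j :: U) + (if j = a.1 then sg a.2 * vac L U else 0) = 0
        rw [ih (j :: U) (by rw [List.length_cons]; omega), ih U (by omega)]
        simp
  obtain ⟨⟨i, ε⟩, L', rfl⟩ := List.exists_cons_of_ne_nil hL
  obtain ⟨k, g, U0, hk, h0, hs, hl, hn, hf⟩ := good_red L' i ε hr
  have h1 : vac ((i, ε) :: L') (i :: U0) ≠ 0 := by
    rw [hf i U0 hs, if_pos rfl, hl (i :: U0) hs (by simp), zero_add]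
    exact mul_ne_zero (mul_ne_zero (by exact_mod_cast (by omega : k ≠ 0)) (sg_ne ε)) h0
  refine ⟨i :: U0, by simp, hs, ?_, h1⟩
  by_contra h
  exact h1 (key _ _ (not_le.mp h))

/-- the truncated expansion in the free associative algebra -/
noncomputable def uu (M : ℕ) : List (Fin n × Bool) → Al (Fin n)
  | [] => 1
  | a :: L => (if a.2 then 1 + wd [a.1] else ∑ k ∈ range (M + 1), (-wd [a.1]) ^ k) * uu M L

lemma co_X_mul (i : Fin n) (a : Al (Fin n)) (U : List (Fin n)) :
    co (wd [i] * a) U = match U with
      | [] => 0
      | j :: U' => if j = i then co a U' else 0 := by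
  classical
  rw [Lead2.expand a, Finset.mul_sum, Lead2.co_sum]
  rcases U with _ | ⟨j, U'⟩
  · refine Finset.sum_eq_zero fun m _ => ?_
    rw [mul_smul_comm, ← Lead2.wd_append, Lead2.co_smul, co_wd, if_neg (by simp), mul_zero]
  · show _ = if j = i then _ else 0
    by_cases h : j = i
    · rw [if_pos h, Lead2.co_sum]
      refine Finset.sum_congr rfl fun m _ => ?_
      rw [mul_smul_comm, ← Lead2.wd_append, Lead2.co_smul, Lead2.co_smul, co_wd, co_wd]
      congr 1
      by_cases h1 : FreeMonoid.toList m = U'
      · rw [if_pos h1, if_pos (by rw [h1, h]; rfl)]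
      · rw [if_neg h1, if_neg]
        intro h2
        exact h1 (List.cons.inj h2).2
    · rw [if_neg h]
      refine Finset.sum_eq_zero fun m _ => ?_
      rw [mul_smul_comm, ← Lead2.wd_append, Lead2.co_smul, co_wd, if_neg, mul_zero]
      intro h2
      exact h (List.cons.inj h2).1.symm

lemma co_XX_mul (i : Fin n) (a : Al (Fin n)) (U : List (Fin n)) (hU : SF U) :
    co (wd [i] * (wd [i] * a)) U = 0 := by
  rw [co_X_mul]
  rcases U with _ | ⟨j, U⟩
  · rfl
  · show (if j = i then co (wd [i] * a) U else 0) = 0
    by_cases h : j = i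
    · rw [if_pos h, co_X_mul]
      rcases U with _ | ⟨l, U⟩
      · rfl
      · show (if l = i then co a U else 0) = 0
        rw [if_neg]
        intro h1
        exact hU.1 (h.trans h1.symm)
    · rw [if_neg h]

lemma co_uu (M : ℕ) (hM : 1 ≤ M) : ∀ (L : List (Fin n × Bool)) (U : List (Fin n)), SF U →
    co (uu M L) U = vac L U
  | [], U, _ => by
      show co (1 : Al (Fin n)) U = if U = [] then 1 else 0
      rw [← Lead2.wd_nil, co_wd]
      by_cases h : U = []
      · rw [if_pos h, if_pos h.symm]
      · rw [if_neg h, if_neg (fun h' => h h'.symm)]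
  | (i, ε) :: L, U, hU => by
      have ih := co_uu M hM L
      have hfin : co (uu M L) U + sg ε * co (wd [i] * uu M L) U = vac ((i, ε) :: L) U := by
        rw [co_X_mul, ih U hU]
        rcases U with _ | ⟨j, U⟩
        · show vac L [] + sg ε * 0 = vac L []
          rw [mul_zero, add_zero]
        · show vac L (j :: U) + sg ε * (if j = i then co (uu M L) U else 0) =
            vac L (j :: U) + if j = i then sg ε * vac L U else 0
          rw [ih U hU.tail]
          by_cases h : j = i
          · rw [if_pos h, if_pos h]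
          · rw [if_neg h, if_neg h, mul_zero]
      cases ε with
      | true =>
        have h1 : uu M ((i, true) :: L) = (1 + wd [i]) * uu M L := by
          show (if true then 1 + wd [i] else ∑ k ∈ range (M + 1), (-wd [i]) ^ k) * uu M L = _
          rw [if_pos rfl]
        rw [h1, add_mul, one_mul, Lead2.co_add, ← hfin]
        simp [sg]
      | false =>
        have h1 : uu M ((i, false) :: L) = (∑ k ∈ range (M + 1), (-wd [i]) ^ k) * uu M L := rfl
        obtain ⟨m, rfl⟩ : ∃ m, M = m + 1 := ⟨M - 1, by omega⟩
        have h2 : (∑ k ∈ range (m + 1 + 1), (-wd [i] : Al (Fin n)) ^ k) =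
            1 - wd [i] + wd [i] * (wd [i] * ∑ k ∈ range m, (-wd [i]) ^ k) := by
          rw [Finset.sum_range_succ', Finset.sum_range_succ']
          have h3 : ∀ k : ℕ, (-wd [i] : Al (Fin n)) ^ (k + 1 + 1) = wd [i] * (wd [i] * (-wd [i]) ^ k) := by
            intro k
            rw [pow_succ', pow_succ']
            simp
          simp only [h3]
          rw [← Finset.mul_sum, ← Finset.mul_sum]
          simp only [zero_add, pow_one, pow_zero]
          abel
        rw [h1, h2, add_mul, Lead2.co_add, mul_assoc, mul_assoc, co_XX_mul _ _ _ hU, add_zero,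
          sub_mul, one_mul, Lead2.co_sub, ← hfin]
        simp [sg]
        ring

end Run7.h102.DG
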