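import Pool.Agent.Run7.h102.DG.G1

/-!
# Special automorphisms and the linearized operators
-/

set_option autoImplicit false

namespace Run7.h102.DG

open Finset Pool.Agent.H777R4.DM PowerSeries

attribute [local instance 100] LieRing.ofAssociativeRing

/-- the power series over `ℚ⟨x₀, x₁⟩` -/
abbrev V : Type := PowerSeries A

/-- `F = 1 + ψ t^w + …`, and `α` is the automorphism `t ↦ t`, `x₀ ↦ x₀`, `x₁ ↦ F⁻¹ x₁ F` -/
structure Sp (w : ℕ) (ψ : A) (F : Vˣ) (α : V ≃ₐ[ℚ] V) : Prop where
  hw : 1 ≤ w
  F0 : ∀ m, m < w → coeff m (F : V) = if m = 0 then 1 else 0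
  Fw : coeff w (F : V) = ψ
  aX : α X = X
  a0 : α (C (x 0)) = C (x 0)
  a1 : (F : V) * α (C (x 1)) = C (x 1) * F

lemma map_Xpow {α : V ≃ₐ[ℚ] V} (h : α X = X) (k : ℕ) (g : V) : α (X ^ k * g) = X ^ k * α g := by
  rw [map_mul, map_pow, h]

/-- the additive map `a ↦ coeff m (α a)` -/
noncomputable def cm (α : V ≃ₐ[ℚ] V) (m : ℕ) : A →+ A :=
  (coeff m : V →ₗ[A] A).toAddMonoidHom.comp
    ((α : V →+* V).toAddMonoidHom.comp (C : A →+* V).toAddMonoidHom)

lemma cm_apply (α : V ≃ₐ[ℚ] V) (m : ℕ) (a : A) : cm α m a = coeff m (α (C a)) := rfl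

lemma coeff_map (α : V ≃ₐ[ℚ] V) (h : α X = X) : ∀ (m : ℕ) (g : V),
    coeff m (α g) = ∑ j ∈ range (m + 1), cm α (m - j) (coeff j g)
  | 0, g => by
      conv_lhs => rw [eq_X_mul_shift_add_const g, map_add, map_mul, h, map_add]
      rw [Finset.sum_range_one, coeff_zero_X_mul, zero_add, cm_apply, Nat.sub_zero,
        coeff_zero_eq_constantCoeff_apply g]
  | m + 1, g => by
      conv_lhs => rw [eq_X_mul_shift_add_const g, map_add, map_mul, h, map_add]
      rw [coeff_succ_X_mul, coeff_map α h m, Finset.sum_range_succ' _ (m + 1)]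
      congr 1
      · refine Finset.sum_congr rfl fun j _ => ?_
        rw [coeff_mk]
        congr 2
        omega
      · rw [cm_apply, Nat.sub_zero, coeff_zero_eq_constantCoeff_apply g]

section

variable {w : ℕ} {ψ : A} {F : Vˣ} {α : V ≃ₐ[ℚ] V} (H : Sp w ψ F α)

include H

/-- the value at a letter -/
lemma Sp.let (i : Fin 2) : ∀ m, m ≤ w → cm α m (x i) = if m = 0 then x i else if m = w then
    (if i = 1 then x 1 * ψ - ψ * x 1 else 0) else 0 := by
  have hC : ∀ (a : A) (m : ℕ), coeff m (C a : V) = if m = 0 then a else 0 := fun a m => coeff_C m a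
  intro m hm
  fin_cases i
  · show coeff m (α (C (x 0))) = if m = 0 then x 0 else if m = w then
      (if (0 : Fin 2) = 1 then x 1 * ψ - ψ * x 1 else 0) else 0
    rw [H.a0, hC]
    simp
  · show coeff m (α (C (x 1))) = if m = 0 then x 1 else if m = w then
      (if (1 : Fin 2) = 1 then x 1 * ψ - ψ * x 1 else 0) else 0
    have h1 : ∀ m, ∑ p ∈ HasAntidiagonal.antidiagonal m, coeff p.1 (F : V) * coeff p.2 (α (C (x 1))) =
        x 1 * coeff m (F : V) := by
      intro m
      rw [← coeff_mul, H.a1, coeff_C_mul]
    -- below w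
    have h2 : ∀ m, m < w → coeff m (α (C (x 1))) = if m = 0 then x 1 else 0 := by
      intro m hm
      have h3 := h1 m
      rw [Finset.sum_eq_single (0, m)] at h3
      · rw [H.F0 0 (by have := H.hw; omega), if_pos rfl, one_mul, H.F0 m hm] at h3
        rw [h3]
        by_cases h0 : m = 0
        · rw [if_pos h0, if_pos h0, mul_one]
        · rw [if_neg h0, if_neg h0, mul_zero]
      · rintro ⟨a, b⟩ hab hne
        rw [HasAntidiagonal.mem_antidiagonal] at hab
        simp only at hab ⊢
        have ha : a ≠ 0 := by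
          rintro rfl
          apply hne
          rw [← hab, zero_add]
        rw [H.F0 a (by omega), if_neg ha, zero_mul]
      · intro h
        exact absurd (by rw [HasAntidiagonal.mem_antidiagonal]; simp) h
    rcases Nat.lt_or_ge m w with h | h
    · rw [h2 m h, if_neg (show m ≠ w by omega)]
    · have hmw : m = w := le_antisymm hm h
      subst hmw
      have hm0 : m ≠ 0 := by have := H.hw; omega
      rw [if_neg hm0, if_pos rfl, if_pos rfl]
      have h3 := h1 m
      rw [← Finset.sum_subset (s₁ := {(0, m), (m, 0)})] at h3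
      · rw [Finset.sum_pair (by simpa using fun h => absurd h.symm hm0)] at h3
        rw [H.F0 0 (by omega), if_pos rfl, one_mul, H.Fw, h2 0 (by omega), if_pos rfl] at h3
        rw [← h3]
        abel
      · intro q hq
        rw [HasAntidiagonal.mem_antidiagonal]
        simp only [mem_insert, mem_singleton] at hq
        rcases hq with rfl | rfl <;> simp
      · rintro ⟨a, b⟩ hab hne
        rw [HasAntidiagonal.mem_antidiagonal] at hab
        simp only [mem_insert, mem_singleton, Prod.mk.injEq, not_or] at hab hne ⊢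
        have ha0 : a ≠ 0 := fun h => hne.1 ⟨h, by omega⟩
        have ham : a ≠ m := fun h => hne.2 ⟨h, by omega⟩
        rw [H.F0 a (by omega), if_neg ha0, zero_mul]

lemma Sp.word : ∀ (u : List (Fin 2)) (m : ℕ), m ≤ w → cm α m (wd u) = if m = 0 then wd u else
    if m = w then derW ψ u else 0
  | [], m, _ => by
      have h1 : cm α m (wd []) = if m = 0 then 1 else 0 := by
        rw [cm_apply, Lead2.wd_nil, map_one, map_one, coeff_one]
      rw [h1, Lead2.wd_nil]
      have h2 : derW ψ [] = 0 := rfl
      rw [h2]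
      simp
  | i :: u, m, hm => by
      have hw : (wd (i :: u) : A) = x i * wd u := by
        have : (i :: u) = [i] ++ u := rfl
        rw [this, Lead2.wd_append]
        rfl
      have h1 : cm α m (wd (i :: u)) = ∑ p ∈ HasAntidiagonal.antidiagonal m, cm α p.1 (x i) * cm α p.2 (wd u) := by
        rw [hw]
        simp only [cm_apply]
        rw [map_mul, map_mul, coeff_mul]
      have ih := Sp.word u
      have hl := H.let i
      rw [h1]
      by_cases hm0 : m = 0
      · subst hm0
        rw [if_pos rfl, show HasAntidiagonal.antidiagonal 0 = {((0 : ℕ), (0 : ℕ))} from rfl, Finset.sum_singleton, hl 0 (by omega), if_pos rfl,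
          ih 0 (by omega), if_pos rfl, hw]
      rw [if_neg hm0]
      rcases Nat.lt_or_ge m w with h | h
      · rw [if_neg (show m ≠ w by omega)]
        refine Finset.sum_eq_zero ?_
        rintro ⟨a, b⟩ hab
        rw [HasAntidiagonal.mem_antidiagonal] at hab
        simp only at hab ⊢
        by_cases ha : a = 0
        · rw [ih b (by omega), if_neg (show b ≠ 0 by omega), if_neg (show b ≠ w by omega), mul_zero]
        · rw [hl a (by omega), if_neg ha, if_neg (show a ≠ w by omega), zero_mul]
      · have hmw : m = w := le_antisymm hm h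
        subst hmw
        rw [if_pos rfl]
        rw [← Finset.sum_subset (s₁ := {(0, m), (m, 0)})]
        · rw [Finset.sum_pair (by simpa using fun h => absurd h.symm hm0)]
          simp only
          rw [hl 0 (by omega), if_pos rfl, ih m (by omega), if_neg hm0, if_pos rfl, hl m (by omega),
            if_neg hm0, if_pos rfl, ih 0 (by omega), if_pos rfl]
          show x i * derW ψ u + (if i = 1 then x 1 * ψ - ψ * x 1 else 0) * wd u =
            (if i = 1 then x 1 * ψ - ψ * x 1 else 0) * wd u + x i * derW ψ u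
          rw [add_comm]
        · intro q hq
          rw [HasAntidiagonal.mem_antidiagonal]
          simp only [mem_insert, mem_singleton] at hq
          rcases hq with rfl | rfl <;> simp
        · rintro ⟨a, b⟩ hab hne
          rw [HasAntidiagonal.mem_antidiagonal] at hab
          simp only [mem_insert, mem_singleton, Prod.mk.injEq, not_or] at hab hne ⊢
          have ha0 : a ≠ 0 := fun h => hne.1 ⟨h, by omega⟩
          have ham : a ≠ m := fun h => hne.2 ⟨h, by omega⟩
          rw [hl a (by omega), if_neg ha0, if_neg ham, zero_mul]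

lemma Sp.cm_eq (a : A) (m : ℕ) (hm : m ≤ w) : cm α m a = if m = 0 then a else
    if m = w then der ψ a else 0 := by
  have h1 : ∀ (f : A →+ A) (c : ℚ) (b : A), f (c • b) = c • f b := fun f c b => map_rat_smul f c b
  rw [Lead2.expand a]
  rw [map_sum, map_sum]
  simp only [h1, map_smul]
  have h2 : ∀ u, der ψ (wd u) = derW ψ u := fun u => Lead2.lext_wd _ _
  simp only [H.word _ m hm, h2]
  by_cases h0 : m = 0
  · simp only [if_pos h0]
  · simp only [if_neg h0]
    by_cases h3 : m = w
    · simp only [if_pos h3]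
    · simp only [if_neg h3, smul_zero, Finset.sum_const_zero]

lemma Sp.low (g : V) (m : ℕ) (hm : m < w) : coeff m (α g) = coeff m g := by
  rw [coeff_map α H.aX, Finset.sum_eq_single m]
  · rw [H.cm_eq _ _ (by omega), if_pos (by omega)]
  · intro j hj hne
    rw [mem_range] at hj
    rw [H.cm_eq _ _ (by omega), if_neg (by omega), if_neg (by omega)]
  · intro h
    exact absurd (mem_range.mpr (by omega)) h

lemma Sp.at (g : V) : coeff w (α g) = coeff w g + der ψ (coeff 0 g) := by
  have hw := H.hw
  rw [coeff_map α H.aX, Finset.sum_range_succ, Nat.sub_self, H.cm_eq _ 0 (by omega), if_pos rfl,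
    add_comm]
  congr 1
  rw [Finset.sum_eq_single 0]
  · rw [Nat.sub_zero, H.cm_eq _ w le_rfl, if_neg (by omega), if_pos rfl]
  · intro j hj hne
    rw [mem_range] at hj
    rw [H.cm_eq _ _ (by omega), if_neg (by omega), if_neg (by omega)]
  · intro h
    exact absurd (mem_range.mpr (by omega)) h

/-- the operator `g ↦ F α(g)`, below `w` -/
lemma Sp.S_low (g : V) (m : ℕ) (hm : m < w) : coeff m ((F : V) * α g) = coeff m g := by
  rw [coeff_mul, Finset.sum_eq_single (0, m)]
  · simp only
    rw [H.F0 0 (by omega), if_pos rfl, one_mul, H.low g m hm]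
  · rintro ⟨a, b⟩ hab hne
    rw [HasAntidiagonal.mem_antidiagonal] at hab
    simp only at hab ⊢
    have ha : a ≠ 0 := by
      rintro rfl
      apply hne
      rw [← hab, zero_add]
    rw [H.F0 a (by omega), if_neg ha, zero_mul]
  · intro h
    exact absurd (by rw [HasAntidiagonal.mem_antidiagonal]; simp) h

/-- the operator `g ↦ F α(g)`, at `w` -/
lemma Sp.S_at (g : V) : coeff w ((F : V) * α g) = coeff w g + s ψ (coeff 0 g) := by
  have hw := H.hw
  rw [coeff_mul, ← Finset.sum_subset (s₁ := {(0, w), (w, 0)})]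
  · rw [Finset.sum_pair (by simpa using fun h => absurd h.symm (by omega))]
    simp only
    rw [H.F0 0 (by omega), if_pos rfl, one_mul, H.Fw, H.at g, H.low g 0 (by omega)]
    show _ = coeff w g + (ψ * coeff 0 g + der ψ (coeff 0 g))
    abel
  · intro q hq
    rw [HasAntidiagonal.mem_antidiagonal]
    simp only [mem_insert, mem_singleton] at hq
    rcases hq with rfl | rfl <;> simp
  · rintro ⟨a, b⟩ hab hne
    rw [HasAntidiagonal.mem_antidiagonal] at hab
    simp only [mem_insert, mem_singleton, Prod.mk.injEq, not_or] at hab hne ⊢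
    have ha0 : a ≠ 0 := fun h => hne.1 ⟨h, by omega⟩
    have ham : a ≠ w := fun h => hne.2 ⟨h, by omega⟩
    rw [H.F0 a (by omega), if_neg ha0, zero_mul]

/-- the operator `P = F α - 1` raises the order -/
lemma Sp.P_order (g : V) (k : ℕ) (hg : ∀ m, m < k → coeff m g = 0) :
    (∀ m, m < k + w → coeff m ((F : V) * α g - g) = 0) ∧
      coeff (k + w) ((F : V) * α g - g) = s ψ (coeff k g) := by
  obtain ⟨g', rfl⟩ := X_pow_dvd_iff.mpr hg
  have h1 : (F : V) * α (X ^ k * g') - X ^ k * g' = X ^ k * ((F : V) * α g' - g') := by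
    rw [map_Xpow H.aX, mul_sub, ← mul_assoc, ← mul_assoc, ← X_pow_mul (φ := (F : V)) (n := k)]
  rw [h1]
  constructor
  · intro m hm
    rw [coeff_X_pow_mul']
    split_ifs with h
    · rw [map_sub, H.S_low g' (m - k) (by omega), sub_self]
    · rfl
  · rw [coeff_X_pow_mul', if_pos (by omega), coeff_X_pow_mul', if_pos le_rfl, Nat.sub_self]
    have h2 : k + w - k = w := by omega
    rw [h2, map_sub, H.S_at g']
    abel

end

end Run7.h102.DG
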