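import Pool.Agent.Run7.h102.DG.G2

/-!
# Special automorphisms generate a free group
-/

set_option autoImplicit false

namespace Run7.h102.DG

open Finset Pool.Agent.H777R4.DM PowerSeries
open Pool.Agent.H861R3.DM.LeadN (evN PhiN_wd)

attribute [local instance 100] LieRing.ofAssociativeRing

/-- the operator `g ↦ F α(g)` -/
noncomputable def SU (F : Vˣ) (α : V ≃ₐ[ℚ] V) : (Module.End ℚ V)ˣ where
  val := (LinearMap.mulLeft ℚ (F : V)) ∘ₗ α.toLinearMap
  inv := α.symm.toLinearMap ∘ₗ (LinearMap.mulLeft ℚ ((F⁻¹ : Vˣ) : V))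
  val_inv := by
    ext1 g
    show (F : V) * α (α.symm (((F⁻¹ : Vˣ) : V) * g)) = g
    rw [AlgEquiv.apply_symm_apply, ← mul_assoc, Units.mul_inv, one_mul]
  inv_val := by
    ext1 g
    show α.symm (((F⁻¹ : Vˣ) : V) * ((F : V) * α g)) = g
    rw [← mul_assoc, Units.inv_mul, one_mul, AlgEquiv.symm_apply_apply]

lemma SU_apply (F : Vˣ) (α : V ≃ₐ[ℚ] V) (g : V) : (SU F α : Module.End ℚ V) g = F * α g := rfl

lemma SU_inv_apply (F : Vˣ) (α : V ≃ₐ[ℚ] V) (g : V) :
    (((SU F α)⁻¹ : (Module.End ℚ V)ˣ) : Module.End ℚ V) g = α.symm (((F⁻¹ : Vˣ) : V) * g) := rfl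

variable {n : ℕ}

lemma cocycle (F : Fin n → Vˣ) (α : Fin n → (V ≃ₐ[ℚ] V))
    (h1 : ∀ i, (F i : V) * α i (C (x 1)) = C (x 1) * F i) (W : FreeGroup (Fin n)) :
    ∃ G : Vˣ, (∀ g : V, ((FreeGroup.lift (fun i => SU (F i) (α i)) W : (Module.End ℚ V)ˣ) :
      Module.End ℚ V) g = G * (FreeGroup.lift α W) g) ∧
      (C (x 1) : V) * G = G * (FreeGroup.lift α W) (C (x 1)) := by
  induction W using FreeGroup.induction_on with
  | C1 => exact ⟨1, fun g => by simp, by simp⟩
  | of i =>
    refine ⟨F i, fun g => ?_, ?_⟩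
    · rw [FreeGroup.lift_apply_of, FreeGroup.lift_apply_of, SU_apply]
    · rw [FreeGroup.lift_apply_of, h1]
  | inv_of i _ =>
    have e1 : FreeGroup.lift (fun i => SU (F i) (α i)) (FreeGroup.of i)⁻¹ = (SU (F i) (α i))⁻¹ := by
      rw [map_inv, FreeGroup.lift_apply_of]
    have e2 : FreeGroup.lift α (FreeGroup.of i)⁻¹ = (α i)⁻¹ := by
      rw [map_inv, FreeGroup.lift_apply_of]
    refine ⟨Units.map (α i).symm.toAlgHom.toRingHom.toMonoidHom (F i)⁻¹, fun g => ?_, ?_⟩
    · rw [e1, e2, SU_inv_apply, map_mul]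
      rfl
    · rw [e2]
      show (C (x 1) : V) * (α i).symm (((F i)⁻¹ : Vˣ) : V) =
        (α i).symm (((F i)⁻¹ : Vˣ) : V) * (α i).symm (C (x 1))
      apply (α i).injective
      rw [map_mul, map_mul, AlgEquiv.apply_symm_apply, AlgEquiv.apply_symm_apply]
      have h2 := h1 i
      have h3 : α i (C (x 1)) = ((F i)⁻¹ : Vˣ) * (C (x 1) * F i) := by
        rw [← h2, ← mul_assoc, Units.inv_mul, one_mul]
      rw [h3, mul_assoc, mul_assoc, Units.mul_inv, mul_one]
  | mul W1 W2 ih1 ih2 =>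
    obtain ⟨G1, a1, b1⟩ := ih1
    obtain ⟨G2, a2, b2⟩ := ih2
    refine ⟨G1 * Units.map (FreeGroup.lift α W1).toAlgHom.toRingHom.toMonoidHom G2,
      fun g => ?_, ?_⟩
    · rw [map_mul, map_mul, Units.val_mul, Module.End.mul_apply, a2, a1, AlgEquiv.mul_apply, map_mul,
        ← mul_assoc]
      rfl
    · rw [map_mul, AlgEquiv.mul_apply]
      show (C (x 1) : V) * (G1 * (FreeGroup.lift α W1) G2) =
        G1 * (FreeGroup.lift α W1) G2 * (FreeGroup.lift α W1) ((FreeGroup.lift α W2) (C (x 1)))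
      rw [mul_assoc, ← map_mul, ← b2, map_mul, ← mul_assoc, b1, mul_assoc]

/-- evaluation of noncommutative polynomials at the operators `S_i - 1` -/
noncomputable def th (F : Fin n → Vˣ) (α : Fin n → (V ≃ₐ[ℚ] V)) : Al (Fin n) →ₐ[ℚ] Module.End ℚ V :=
  MonoidAlgebra.lift ℚ (Module.End ℚ V) (FreeMonoid (Fin n))
    (FreeMonoid.lift fun i => (SU (F i) (α i) : Module.End ℚ V) - 1)

lemma th_of (F : Fin n → Vˣ) (α : Fin n → (V ≃ₐ[ℚ] V)) (i : Fin n) :
    th F α (wd [i]) = (SU (F i) (α i) : Module.End ℚ V) - 1 := by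
  unfold th wd
  rw [MonoidAlgebra.lift_of]
  rfl

lemma wd_cons (i : Fin n) (U : List (Fin n)) : (wd (i :: U) : Al (Fin n)) = wd [i] * wd U := by
  rw [← Lead2.wd_append]
  rfl

/-- the weight -/
def wt (w : Fin n → ℕ) (U : List (Fin n)) : ℕ := (U.map w).sum

section

variable {w : Fin n → ℕ} {ψ : Fin n → A} {F : Fin n → Vˣ} {α : Fin n → (V ≃ₐ[ℚ] V)}
  (H : ∀ i, Sp (w i) (ψ i) (F i) (α i))

include H

lemma order : ∀ U : List (Fin n), (∀ m, m < wt w U → coeff m (th F α (wd U) 1) = 0) ∧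
    coeff (wt w U) (th F α (wd U) 1) = evN ψ U
  | [] => by
      rw [Lead2.wd_nil, map_one (th F α), Module.End.one_apply]
      refine ⟨fun m hm => ?_, ?_⟩
      · simp [wt] at hm
      · show coeff 0 (1 : V) = 1
        rw [coeff_zero_one]
  | i :: U => by
      obtain ⟨h1, h2⟩ := order U
      rw [wd_cons, map_mul, Module.End.mul_apply, th_of]
      have h3 := (H i).P_order (th F α (wd U) 1) (wt w U) h1
      have h4 : wt w (i :: U) = wt w U + w i := by
        unfold wt
        rw [List.map_cons, List.sum_cons, add_comm]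
      rw [h4]
      refine ⟨h3.1, ?_⟩
      refine h3.2.trans ?_
      rw [h2]
      rfl

lemma S_dvd (i : Fin n) (k : ℕ) (g : V) (hg : X ^ k ∣ g) :
    X ^ k ∣ (SU (F i) (α i) : Module.End ℚ V) g := by
  obtain ⟨g', rfl⟩ := hg
  rw [SU_apply, map_Xpow (H i).aX, ← mul_assoc, ← X_pow_mul, mul_assoc]
  exact dvd_mul_right _ _

lemma Sinv_dvd (i : Fin n) (k : ℕ) (g : V) (hg : X ^ k ∣ g) :
    X ^ k ∣ (((SU (F i) (α i))⁻¹ : (Module.End ℚ V)ˣ) : Module.End ℚ V) g := by
  obtain ⟨g', rfl⟩ := hg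
  have h1 : (α i).symm X = X := by
    rw [AlgEquiv.symm_apply_eq]
    exact (H i).aX.symm
  rw [SU_inv_apply, ← mul_assoc, ← X_pow_mul, mul_assoc, map_Xpow h1]
  exact dvd_mul_right _ _

lemma P_pow_dvd (i : Fin n) (g : V) : ∀ k : ℕ,
    X ^ k ∣ ((-((SU (F i) (α i) : Module.End ℚ V) - 1)) ^ k) g
  | 0 => by
      rw [pow_zero]
      exact one_dvd _
  | k + 1 => by
      have ih := P_pow_dvd i g k
      rw [X_pow_dvd_iff, pow_succ', Module.End.mul_apply]
      intro m hm
      rw [X_pow_dvd_iff] at ih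
      have h1 := ((H i).P_order _ k ih).1 m (by have := (H i).hw; omega)
      rw [LinearMap.neg_apply, map_neg, neg_eq_zero]
      exact h1

/-- the operators of the word -/
noncomputable def SLop (F : Fin n → Vˣ) (α : Fin n → (V ≃ₐ[ℚ] V)) (L : List (Fin n × Bool)) :
    (Module.End ℚ V)ˣ :=
  (L.map fun a => bif a.2 then SU (F a.1) (α a.1) else (SU (F a.1) (α a.1))⁻¹).prod

lemma expan (M : ℕ) (g : V) : ∀ L : List (Fin n × Bool),
    X ^ (M + 1) ∣ (SLop F α L : Module.End ℚ V) g - th F α (uu M L) g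
  | [] => by
      have h1 : (SLop F α ([] : List (Fin n × Bool)) : Module.End ℚ V) g = g := rfl
      have h2 : uu M ([] : List (Fin n × Bool)) = 1 := rfl
      rw [h1, h2, map_one (th F α), Module.End.one_apply, sub_self]
      exact dvd_zero _
  | (i, ε) :: L => by
      have ih := expan M g L
      set g' := (SLop F α L : Module.End ℚ V) g with hg'
      set h := th F α (uu M L) g with hh
      cases ε with
      | true =>
        have h1 : (SLop F α ((i, true) :: L) : Module.End ℚ V) g =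
            (SU (F i) (α i) : Module.End ℚ V) g' := rfl
        have h2 : uu M ((i, true) :: L) = (1 + wd [i]) * uu M L := by
          show (if true then 1 + wd [i] else ∑ k ∈ range (M + 1), (-wd [i]) ^ k) * uu M L = _
          rw [if_pos rfl]
        rw [h1, h2, map_mul, Module.End.mul_apply, ← hh, map_add, map_one, th_of,
          add_sub_cancel, ← map_sub]
        exact S_dvd H i _ _ ih
      | false =>
        have h1 : (SLop F α ((i, false) :: L) : Module.End ℚ V) g =
            (((SU (F i) (α i))⁻¹ : (Module.End ℚ V)ˣ) : Module.End ℚ V) g' := rfl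
        have h2 : uu M ((i, false) :: L) = (∑ k ∈ range (M + 1), (-wd [i]) ^ k) * uu M L := rfl
        rw [h1, h2, map_mul, Module.End.mul_apply, ← hh, map_sum]
        simp only [map_pow, map_neg, th_of]
        set P := (SU (F i) (α i) : Module.End ℚ V) - 1 with hP
        have h3 : (SU (F i) (α i) : Module.End ℚ V) * ∑ k ∈ range (M + 1), (-P) ^ k =
            1 - (-P) ^ (M + 1) := by
          rw [← mul_neg_geom_sum, sub_neg_eq_add, hP, add_sub_cancel]
        have h4 : ∑ k ∈ range (M + 1), (-P) ^ k =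
            (((SU (F i) (α i))⁻¹ : (Module.End ℚ V)ˣ) : Module.End ℚ V) * (1 - (-P) ^ (M + 1)) := by
          rw [← h3, ← mul_assoc, Units.inv_mul, one_mul]
        rw [h4, Module.End.mul_apply, ← map_sub, LinearMap.sub_apply, Module.End.one_apply]
        apply Sinv_dvd H
        have h5 : g' - (h - ((-P) ^ (M + 1)) h) = (g' - h) + ((-P) ^ (M + 1)) h := by abel
        rw [h5]
        exact dvd_add ih (P_pow_dvd H i h (M + 1))

end

lemma co_mul_X {m : ℕ} (i : Fin m) (a : Al (Fin m)) (v : List (Fin m)) :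
    co (a * wd [i]) (v ++ [i]) = co a v := by
  classical
  conv_rhs => rw [Lead2.expand a]
  conv_lhs => rw [Lead2.expand a]
  rw [Finset.sum_mul, Lead2.co_sum, Lead2.co_sum]
  refine Finset.sum_congr rfl fun q _ => ?_
  rw [smul_mul_assoc, ← Lead2.wd_append, Lead2.co_smul, Lead2.co_smul, co_wd, co_wd]
  congr 1
  by_cases h1 : FreeMonoid.toList q = v
  · rw [if_pos h1, if_pos (by rw [h1])]
  · rw [if_neg h1, if_neg]
    intro h2
    exact h1 (List.append_inj_left' h2 rfl)

/-- **The group theorem.** -/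
theorem grp {w : Fin n → ℕ} {ψ : Fin n → A} {F : Fin n → Vˣ} {α : Fin n → (V ≃ₐ[ℚ] V)}
    (H : ∀ i, Sp (w i) (ψ i) (F i) (α i))
    (hinj : ∀ P : Al (Fin n), (∀ e : List ℕ, e ≠ [] → (∀ x ∈ e, 1 ≤ x) →
      co (PhiN ψ P) (wordX e) = 0) → ∀ W : List (Fin n), W ≠ [] → co P W = 0) :
    Function.Injective (FreeGroup.lift α) := by
  classical
  rw [injective_iff_map_eq_one]
  intro W hW
  by_contra hne
  set L := W.toWord with hL
  have hL0 : L ≠ [] := by
    intro h
    exact hne (FreeGroup.toWord_eq_nil_iff.mp h)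
  obtain ⟨U, hU0, hSF, _, hvac⟩ := exists_vac L hL0 FreeGroup.isReduced_toWord
  have hwt : ∀ U : List (Fin n), U ≠ [] → 1 ≤ wt w U := by
    intro U hU
    obtain ⟨i, U', rfl⟩ := List.exists_cons_of_ne_nil hU
    unfold wt
    rw [List.map_cons, List.sum_cons]
    have := (H i).hw
    omega
  set M := wt w U with hM
  set u := uu M L with hu
  have hcoU : co u U ≠ 0 := by
    rw [hu, co_uu M (hwt U hU0) L U hSF]
    exact hvac
  -- the words with nonzero coefficient
  set T := u.coeff.support.filter fun m => FreeMonoid.toList m ≠ [] with hT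
  have hcoT : ∀ m, m ∈ T ↔ (co u (FreeMonoid.toList m) ≠ 0 ∧ FreeMonoid.toList m ≠ []) := by
    intro m
    rw [hT, mem_filter, Finsupp.mem_support_iff]
    rfl
  have hUT : FreeMonoid.ofList U ∈ T := (hcoT _).mpr ⟨hcoU, hU0⟩
  obtain ⟨m1, hm1, hmin⟩ := Finset.exists_min_image T (fun m => wt w (FreeMonoid.toList m)) ⟨_, hUT⟩
  set m0 := wt w (FreeMonoid.toList m1) with hm0
  have hm0M : m0 ≤ M := hmin _ hUT
  have hm01 : 1 ≤ m0 := hwt _ ((hcoT m1).mp hm1).2
  set a : Al (Fin n) := ∑ m ∈ T.filter (fun m => wt w (FreeMonoid.toList m) = m0),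
    co u (FreeMonoid.toList m) • wd (FreeMonoid.toList m) with ha
  -- the coefficient of the expansion
  have hth : coeff m0 (th F α u 1) = PhiN ψ a := by
    conv_lhs => rw [Lead2.expand u]
    rw [map_sum, LinearMap.sum_apply, map_sum, ha, map_sum]
    have h1 : ∀ m : FreeMonoid (Fin n), coeff m0 ((th F α (co u (FreeMonoid.toList m) •
        wd (FreeMonoid.toList m))) 1) = co u (FreeMonoid.toList m) •
          coeff m0 (th F α (wd (FreeMonoid.toList m)) 1) := by
      intro m
      rw [map_smul, LinearMap.smul_apply]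
      exact map_rat_smul (coeff m0 : V →ₗ[A] A) _ _
    rw [Finset.sum_congr rfl fun m _ => h1 m]
    simp only [map_smul, PhiN_wd]
    rw [← Finset.sum_subset (s₁ := T.filter (fun m => wt w (FreeMonoid.toList m) = m0))]
    · refine Finset.sum_congr rfl fun m hm => ?_
      rw [mem_filter] at hm
      have := (order H (FreeMonoid.toList m)).2
      rw [hm.2] at this
      rw [this]
    · intro m hm
      rw [mem_filter, hT, mem_filter] at hm
      exact hm.1.1
    · intro m hm hmn
      by_cases h0 : FreeMonoid.toList m = []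
      · rw [h0, Lead2.wd_nil, map_one (th F α), Module.End.one_apply, coeff_one, if_neg (by omega), smul_zero]
      · have hmT : m ∈ T := by
          rw [hT, mem_filter]
          exact ⟨hm, h0⟩
        have h2 : m0 ≤ wt w (FreeMonoid.toList m) := hmin m hmT
        have h3 : wt w (FreeMonoid.toList m) ≠ m0 := by
          intro h
          exact hmn (mem_filter.mpr ⟨hmT, h⟩)
        rw [(order H (FreeMonoid.toList m)).1 m0 (by omega), smul_zero]
  -- the automorphism is trivial
  obtain ⟨G, hG, hG1⟩ := cocycle F α (fun i => (H i).a1) W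
  rw [hW] at hG hG1
  have hGS : (SLop F α L : Module.End ℚ V) 1 = G := by
    have h1 : FreeGroup.lift (fun i => SU (F i) (α i)) W = SLop F α L := by
      conv_lhs => rw [← FreeGroup.mk_toWord (x := W)]
      rw [FreeGroup.lift_mk]
      rfl
    rw [← h1, hG]
    simp
  have hGm : coeff m0 (G : V) = PhiN ψ a := by
    have h1 := expan H M 1 L
    rw [X_pow_dvd_iff] at h1
    have h2 := h1 m0 (by omega)
    rw [map_sub, sub_eq_zero, hGS, ← hu, hth] at h2
    exact h2
  have hcomm : x 1 * PhiN ψ a = PhiN ψ a * x 1 := by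
    have h1 := congrArg (coeff m0) hG1
    rw [coeff_C_mul, AlgEquiv.one_apply, coeff_mul_C, hGm] at h1
    exact h1
  have h2 := hinj a (by
    intro e he hpos
    obtain ⟨k, e', rfl⟩ := List.exists_cons_of_ne_nil he
    have hk := hpos k (by simp)
    obtain ⟨k', rfl⟩ : ∃ k', k = k' + 1 := ⟨k - 1, by omega⟩
    have h3 : wordX ((k' + 1) :: e') = 0 :: (List.replicate k' 0 ++ 1 :: wordX e') := rfl
    have h4 : co (PhiN ψ a * wd [1]) (wordX ((k' + 1) :: e') ++ [1]) =
        co (PhiN ψ a) (wordX ((k' + 1) :: e')) := co_mul_X (1 : Fin 2) _ _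
    have h5 : co (wd [1] * PhiN ψ a) (wordX ((k' + 1) :: e') ++ [1]) = 0 := by
      rw [h3, List.cons_append, co_X_mul]
      show (if (0 : Fin 2) = 1 then _ else (0 : ℚ)) = 0
      rw [if_neg (by decide)]
    rw [← h4]
    have h6 : PhiN ψ a * wd [1] = wd [1] * PhiN ψ a := hcomm.symm
    rw [h6, h5]) (FreeMonoid.toList m1) ((hcoT m1).mp hm1).2
  apply ((hcoT m1).mp hm1).1
  rw [← h2, ha, Lead2.co_sum, Finset.sum_eq_single m1]
  · rw [Lead2.co_smul, co_wd, if_pos rfl, mul_one]
  · intro m _ hne'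
    rw [Lead2.co_smul, co_wd, if_neg, mul_zero]
    exact fun h => hne' (FreeMonoid.toList.injective h)
  · intro h
    exact absurd (show m1 ∈ T.filter (fun m => wt w (FreeMonoid.toList m) = m0) from
      mem_filter.mpr ⟨hm1, rfl⟩) h

end Run7.h102.DG
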