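import Pool.Agent.Run7.h102.DG.G3

/-!
# Existence of the special automorphisms
-/

set_option autoImplicit false

namespace Run7.h102.DG

open Finset Pool.Agent.H777R4.DM PowerSeries

attribute [local instance 100] LieRing.ofAssociativeRing

/-- the homomorphism `x₀ ↦ x₀`, `x₁ ↦ F⁻¹ x₁ F` -/
noncomputable def hA (F : Vˣ) : A →ₐ[ℚ] V :=
  MonoidAlgebra.lift ℚ V (FreeMonoid (Fin 2))
    (FreeMonoid.lift fun i => if i = 0 then (C (x 0) : V) else ((F⁻¹ : Vˣ) : V) * C (x 1) * F)

lemma hA_x (F : Vˣ) (i : Fin 2) :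
    hA F (x i) = if i = 0 then (C (x 0) : V) else ((F⁻¹ : Vˣ) : V) * C (x 1) * F := by
  unfold hA x wd
  rw [MonoidAlgebra.lift_of]
  rfl

lemma hA_zero (F : Vˣ) (hF : coeff 0 (F : V) = 1) (b : A) : coeff 0 (hA F b) = b := by
  have hF1 : constantCoeff (F : V) = 1 := by
    rw [← coeff_zero_eq_constantCoeff_apply, hF]
  have hFi : constantCoeff ((F⁻¹ : Vˣ) : V) = 1 := by
    have h1 : constantCoeff (((F⁻¹ : Vˣ) : V) * (F : V)) = 1 := by
      rw [Units.inv_mul, map_one]
    rwa [map_mul, hF1, mul_one] at h1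
  have hword : ∀ u : List (Fin 2), constantCoeff (hA F (wd u)) = wd u := by
    intro u
    induction u with
    | nil => rw [Lead2.wd_nil, map_one, map_one]
    | cons i u ih =>
      have h1 : (wd (i :: u) : A) = x i * wd u := wd_cons i u
      rw [h1, map_mul, map_mul, ih, hA_x]
      congr 1
      fin_cases i
      · show constantCoeff (C (x 0) : V) = x 0
        exact constantCoeff_C _
      · show constantCoeff (((F⁻¹ : Vˣ) : V) * C (x 1) * (F : V)) = x 1
        rw [map_mul, map_mul, hFi, hF1, one_mul, mul_one]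
        exact constantCoeff_C _
  rw [coeff_zero_eq_constantCoeff_apply]
  have h1 : ∀ (c : ℚ) (u : V), constantCoeff (c • u) = c • constantCoeff u := fun c u =>
    map_rat_smul (constantCoeff : V →+* A) c u
  conv_lhs => rw [Lead2.expand b]
  rw [map_sum, map_sum]
  simp only [map_smul, h1, hword]
  exact (Lead2.expand b).symm

/-- the extension to the power series -/
noncomputable def eA (F : Vˣ) (g : V) : V :=
  mk fun m => ∑ j ∈ range (m + 1), coeff (m - j) (hA F (coeff j g))

lemma eA_coeff (F : Vˣ) (g : V) (m : ℕ) :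
    coeff m (eA F g) = ∑ j ∈ range (m + 1), coeff (m - j) (hA F (coeff j g)) := by
  unfold eA
  rw [coeff_mk]

lemma eA_add (F : Vˣ) (g h : V) : eA F (g + h) = eA F g + eA F h := by
  ext1 m
  rw [map_add, eA_coeff, eA_coeff, eA_coeff, ← Finset.sum_add_distrib]
  refine Finset.sum_congr rfl fun j _ => ?_
  rw [map_add, map_add, map_add]

lemma eA_X (F : Vˣ) (g : V) : eA F (X * g) = X * eA F g := by
  ext1 m
  rcases m with _ | m
  · rw [eA_coeff, Finset.sum_range_one, coeff_zero_X_mul, coeff_zero_X_mul, map_zero, map_zero]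
  · rw [eA_coeff, coeff_succ_X_mul, eA_coeff, Finset.sum_range_succ', coeff_zero_X_mul, map_zero,
      map_zero, add_zero]
    refine Finset.sum_congr rfl fun j _ => ?_
    rw [coeff_succ_X_mul]
    congr 2
    omega

lemma eA_C (F : Vˣ) (b : A) : eA F (C b) = hA F b := by
  ext1 m
  rw [eA_coeff, Finset.sum_eq_single 0]
  · rw [Nat.sub_zero, coeff_zero_C]
  · intro j _ hj
    rw [coeff_C, if_neg hj, map_zero, map_zero]
  · intro h
    exact absurd (mem_range.mpr (by omega)) h

lemma dec (g : V) : ∃ g' : V, g = C (coeff 0 g) + X * g' := by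
  refine ⟨mk fun p => coeff (p + 1) g, ?_⟩
  conv_lhs => rw [eq_X_mul_shift_add_const g]
  rw [add_comm, coeff_zero_eq_constantCoeff_apply g]

lemma eA_C_mul (F : Vˣ) (b : A) (m : ℕ) (h : V) :
    coeff m (eA F (C b * h)) = coeff m (hA F b * eA F h) := by
  induction m generalizing h with
  | zero =>
    obtain ⟨h', hh⟩ := dec h
    have h1 : C b * h = C (b * coeff 0 h) + X * (C b * h') := by
      conv_lhs => rw [hh]
      rw [mul_add, ← map_mul, ← mul_assoc, ← mul_assoc, X_mul]
    have h2 : hA F b * eA F h = hA F (b * coeff 0 h) + X * (hA F b * eA F h') := by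
      conv_lhs => rw [hh]
      rw [eA_add, eA_C, eA_X, mul_add, map_mul, ← mul_assoc, ← mul_assoc, X_mul]
    rw [h1, h2, eA_add, eA_C, eA_X, map_add, map_add, coeff_zero_X_mul, coeff_zero_X_mul]
  | succ m ih =>
    obtain ⟨h', hh⟩ := dec h
    have h1 : C b * h = C (b * coeff 0 h) + X * (C b * h') := by
      conv_lhs => rw [hh]
      rw [mul_add, ← map_mul, ← mul_assoc, ← mul_assoc, X_mul]
    have h2 : hA F b * eA F h = hA F (b * coeff 0 h) + X * (hA F b * eA F h') := by
      conv_lhs => rw [hh]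
      rw [eA_add, eA_C, eA_X, mul_add, map_mul, ← mul_assoc, ← mul_assoc, X_mul]
    rw [h1, h2, eA_add, eA_C, eA_X, map_add, map_add, coeff_succ_X_mul, coeff_succ_X_mul, ih h']

lemma eA_mul' (F : Vˣ) (h : V) (m : ℕ) (g : V) :
    coeff m (eA F (g * h)) = coeff m (eA F g * eA F h) := by
  induction m generalizing g with
  | zero =>
    obtain ⟨g', hg⟩ := dec g
    have h1 : g * h = C (coeff 0 g) * h + X * (g' * h) := by
      conv_lhs => rw [hg]
      rw [add_mul, mul_assoc]
    have h2 : eA F g * eA F h = hA F (coeff 0 g) * eA F h + X * (eA F g' * eA F h) := by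
      conv_lhs => rw [hg]
      rw [eA_add, eA_C, eA_X, add_mul, mul_assoc]
    rw [h1, h2, eA_add, eA_X, map_add, map_add, eA_C_mul, coeff_zero_X_mul, coeff_zero_X_mul]
  | succ m ih =>
    obtain ⟨g', hg⟩ := dec g
    have h1 : g * h = C (coeff 0 g) * h + X * (g' * h) := by
      conv_lhs => rw [hg]
      rw [add_mul, mul_assoc]
    have h2 : eA F g * eA F h = hA F (coeff 0 g) * eA F h + X * (eA F g' * eA F h) := by
      conv_lhs => rw [hg]
      rw [eA_add, eA_C, eA_X, add_mul, mul_assoc]
    rw [h1, h2, eA_add, eA_X, map_add, map_add, eA_C_mul, coeff_succ_X_mul, coeff_succ_X_mul, ih g']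

lemma eA_mul (F : Vˣ) (g h : V) : eA F (g * h) = eA F g * eA F h := by
  ext1 m
  exact eA_mul' F h m g

/-- the extension, an algebra homomorphism -/
noncomputable def aA (F : Vˣ) : V →ₐ[ℚ] V :=
  AlgHom.ofLinearMap
    { toFun := eA F
      map_add' := eA_add F
      map_smul' := fun c g => map_rat_smul (⟨⟨eA F, by
        have h := eA_add F 0 0
        rw [add_zero] at h
        exact left_eq_add.mp h⟩, eA_add F⟩ : V →+ V) c g } (by
      show eA F 1 = 1
      rw [← map_one C, eA_C, map_one, map_one]) (eA_mul F)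

lemma aA_apply (F : Vˣ) (g : V) : aA F g = eA F g := rfl

/-- the coefficients of the inverse image -/
noncomputable def iseq (F : Vˣ) (h : V) (m : ℕ) : A :=
  coeff m h - ∑ j : Fin m, coeff (m - j.1) (hA F (iseq F h j.1))
termination_by m
decreasing_by exact j.2

lemma aA_bij (F : Vˣ) (hF : coeff 0 (F : V) = 1) : Function.Bijective (aA F) := by
  have hlead : ∀ (g : V) (m : ℕ), coeff m (aA F g) =
      coeff m g + ∑ j ∈ range m, coeff (m - j) (hA F (coeff j g)) := by
    intro g m
    rw [aA_apply, eA_coeff, Finset.sum_range_succ, Nat.sub_self, hA_zero F hF, add_comm]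
  constructor
  · rw [injective_iff_map_eq_zero]
    intro g hg
    ext1 m
    induction m using Nat.strong_induction_on with
    | _ m ih =>
      have h1 := hlead g m
      rw [hg, map_zero, Finset.sum_eq_zero, add_zero] at h1
      · rw [← h1, map_zero]
      · intro j hj
        rw [ih j (mem_range.mp hj), map_zero, map_zero, map_zero]
  · intro h
    refine ⟨mk (iseq F h), ?_⟩
    ext1 m
    rw [hlead, coeff_mk, Finset.sum_range]
    simp only [coeff_mk]
    rw [iseq, sub_add_cancel]

/-- **Existence.** -/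
theorem exists_aut (F : Vˣ) (hF : coeff 0 (F : V) = 1) : ∃ α : V ≃ₐ[ℚ] V, α X = X ∧
    α (C (x 0)) = C (x 0) ∧ (F : V) * α (C (x 1)) = C (x 1) * F := by
  refine ⟨AlgEquiv.ofBijective (aA F) (aA_bij F hF), ?_, ?_, ?_⟩
  · show eA F X = X
    have h1 : (X : V) = X * C 1 := by rw [map_one, mul_one]
    conv_lhs => rw [h1]
    rw [eA_X, eA_C, map_one, mul_one]
  · show eA F (C (x 0)) = C (x 0)
    rw [eA_C, hA_x, if_pos rfl]
  · show (F : V) * eA F (C (x 1)) = C (x 1) * F
    rw [eA_C, hA_x, if_neg (by decide), mul_assoc, ← mul_assoc, Units.mul_inv, one_mul]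

/-- **Uniqueness.** -/
theorem unique_aut (F : Vˣ) (α β : V ≃ₐ[ℚ] V) (h1 : α X = X) (h2 : α (C (x 0)) = C (x 0))
    (h3 : (F : V) * α (C (x 1)) = C (x 1) * F) (h1' : β X = X) (h2' : β (C (x 0)) = C (x 0))
    (h3' : (F : V) * β (C (x 1)) = C (x 1) * F) : α = β := by
  have hx1 : α (C (x 1)) = β (C (x 1)) := by
    have h4 : (F : V) * α (C (x 1)) = F * β (C (x 1)) := h3.trans h3'.symm
    exact (Units.mul_right_inj F).mp h4
  have hw : ∀ u : List (Fin 2), α (C (wd u)) = β (C (wd u)) := by
    intro u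
    induction u with
    | nil => rw [Lead2.wd_nil, map_one, map_one, map_one]
    | cons i u ih =>
      have h4 : (wd (i :: u) : A) = x i * wd u := wd_cons i u
      rw [h4, map_mul, map_mul, map_mul, ih]
      congr 1
      fin_cases i
      · exact h2.trans h2'.symm
      · exact hx1
  have hC : ∀ b : A, α (C b) = β (C b) := by
    intro b
    have h5 : ∀ (γ : V ≃ₐ[ℚ] V) (c : ℚ) (a : A), γ (C (c • a)) = c • γ (C a) := fun γ c a =>
      map_rat_smul ((γ : V →+* V).comp (C : A →+* V)) c a
    rw [Lead2.expand b]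
    rw [map_sum, map_sum, map_sum]
    exact Finset.sum_congr rfl fun m _ => by rw [h5, h5, hw]
  ext1 g
  ext1 m
  rw [coeff_map α h1, coeff_map β h1']
  refine Finset.sum_congr rfl fun j _ => ?_
  rw [cm_apply, cm_apply, hC]

end Run7.h102.DG
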