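import Pool.Agent.Run7.h102.DG.Word

/-!
# Lower bounds for the spaces spanned by the words
-/

set_option autoImplicit false

namespace Run7.h102.DG

open Finset Pool.Agent.N568.BK

/-- the space of the words of depth `r` and weight `2 n + r` -/
def U (r n : ℕ) : Submodule ℚ ((ℕ → ℚ) → ℚ) :=
  Submodule.span ℚ {g | ∃ w : List ℕ, w.length = r ∧ w.sum = n ∧ (∀ x ∈ w, 1 ≤ x) ∧ g = wd w}

theorem linind (p : ℕ) (hp : p.Prime) (T : Set ℕ) (σ : ℕ → ℕ)
    (hσ : ∀ a ∈ T, ∀ b ∈ T, a ≠ b → σ b ≤ σ a → p ∣ (2 * b).choose (2 * a)) (r : ℕ)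
    (Q : List ℕ → Prop) (hQ : ∀ w, Q w → w.length = r ∧ (∀ x ∈ w, x ∈ T) ∧ Srt σ w) :
    LinearIndependent ℚ (fun w : {w : List ℕ // Q w} => wd w.1) := by
  classical
  rw [linearIndependent_iff']
  intro s g hg i hi
  set lam : List ℕ → ℚ := fun b => if h : Q b then g ⟨b, h⟩ else 0 with hlam
  have h0 := indep_wd' p hp T σ hσ r (s.image Subtype.val) (by
    intro b hb
    rw [mem_image] at hb
    obtain ⟨b', -, rfl⟩ := hb
    exact hQ b'.1 b'.2) lam (by
    intro y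
    have h1 := congrFun hg y
    rw [sum_image (fun x _ y _ h => Subtype.ext h)]
    rw [Finset.sum_apply] at h1
    simp only [Pi.smul_apply, smul_eq_mul, Pi.zero_apply] at h1
    refine Eq.trans (sum_congr rfl fun b _ => ?_) h1
    simp only [hlam]
    rw [dif_pos b.2]) i.1 (mem_image_of_mem _ hi)
  simp only [hlam] at h0
  rw [dif_pos i.2] at h0
  exact h0

lemma finU (r n : ℕ) : FiniteDimensional ℚ (U r n) := by
  have hfin : {g | ∃ b : List ℕ, b.length = r ∧ b.sum = n ∧ (∀ x ∈ b, 1 ≤ x) ∧ g = wd b}.Finite := by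
    have h1 : {g | ∃ b : List ℕ, b.length = r ∧ b.sum = n ∧ (∀ x ∈ b, 1 ≤ x) ∧ g = wd b} ⊆
        Set.range (fun b : Composition n => wd b.blocks) := by
      rintro v ⟨b, h1, h2, h3, rfl⟩
      exact ⟨⟨b, fun {i} hi => h3 i hi, h2⟩, rfl⟩
    exact (Set.finite_range _).subset h1
  exact FiniteDimensional.span_of_finite ℚ hfin

theorem card_le (p : ℕ) (hp : p.Prime) (T : Set ℕ) (σ : ℕ → ℕ)
    (hσ : ∀ a ∈ T, ∀ b ∈ T, a ≠ b → σ b ≤ σ a → p ∣ (2 * b).choose (2 * a)) (r n : ℕ)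
    (F : Finset (List ℕ)) (hF : ∀ w ∈ F, w.length = r ∧ (∀ x ∈ w, x ∈ T) ∧ Srt σ w)
    (hF' : ∀ w ∈ F, w.sum = n ∧ ∀ x ∈ w, 1 ≤ x) : F.card ≤ Module.finrank ℚ (U r n) := by
  classical
  have := finU r n
  have hind := linind p hp T σ hσ r (fun w => w ∈ F) hF
  have h2 := finrank_span_eq_card hind
  have h3 : Submodule.span ℚ (Set.range fun w : {w : List ℕ // w ∈ F} => wd w.1) ≤ U r n := by
    apply Submodule.span_mono
    rintro w ⟨b, rfl⟩
    exact ⟨b.1, (hF b.1 b.2).1, (hF' b.1 b.2).1, (hF' b.1 b.2).2, rfl⟩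
  have h4 := Submodule.finrank_mono h3
  rw [h2, Fintype.card_coe] at h4
  exact h4

/-- the letters `1, 2, 3, 5, 6` -/
def B5 : Finset ℕ := {1, 2, 3, 5, 6}

/-- there are `m` words of weight `N` in the letters `B5` -/
def Has (N m : ℕ) : Prop :=
  ∃ F : Finset (List ℕ), (∀ w ∈ F, (∀ x ∈ w, x ∈ B5) ∧ 2 * w.sum + w.length = N) ∧ F.card = m

lemma has_zero (N : ℕ) : Has N 0 := ⟨∅, by simp, rfl⟩

lemma has_one : Has 0 1 := ⟨{[]}, by simp, rfl⟩

lemma comb (N : ℕ) (m : ℕ → ℕ) (h : ∀ b ∈ B5, m b = 0 ∨ (2 * b + 1 ≤ N ∧ Has (N - (2 * b + 1)) (m b))) :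
    Has N (∑ b ∈ B5, m b) := by
  classical
  have h1 : ∀ b : ℕ, ∃ F : Finset (List ℕ), b ∈ B5 →
      ((∀ w ∈ F, (∀ x ∈ w, x ∈ B5) ∧ 2 * w.sum + w.length + (2 * b + 1) = N) ∧ F.card = m b) := by
    intro b
    by_cases hb : b ∈ B5
    · rcases h b hb with h0 | ⟨hle, F, hF, hc⟩
      · exact ⟨∅, fun _ => ⟨by simp, by rw [h0]; rfl⟩⟩
      · refine ⟨F, fun _ => ⟨fun w hw => ⟨(hF w hw).1, ?_⟩, hc⟩⟩
        have := (hF w hw).2
        omega
    · exact ⟨∅, fun h => absurd h hb⟩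
  choose F hF using h1
  refine ⟨B5.biUnion fun b => (F b).image fun w => b :: w, ?_, ?_⟩
  · intro w hw
    rw [mem_biUnion] at hw
    obtain ⟨b, hb, hw⟩ := hw
    rw [mem_image] at hw
    obtain ⟨u, hu, rfl⟩ := hw
    obtain ⟨h1, h2⟩ := (hF b hb).1 u hu
    refine ⟨?_, ?_⟩
    · intro x hx
      rcases List.mem_cons.mp hx with h | h
      · rw [h]
        exact hb
      · exact h1 x h
    · rw [List.sum_cons, List.length_cons]
      omega
  · rw [card_biUnion]
    · refine sum_congr rfl fun b hb => ?_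
      rw [card_image_of_injective _ (fun x y h => (List.cons.inj h).2)]
      exact (hF b hb).2
    · intro b _ b' _ hne
      rw [Function.onFun, disjoint_left]
      intro w hw hw'
      rw [mem_image] at hw hw'
      obtain ⟨u, _, rfl⟩ := hw
      obtain ⟨u', _, h⟩ := hw'
      exact hne (List.cons.inj h).1.symm

/-- the first values -/
def tab : ℕ → ℕ
  | 0 => 1
  | 3 => 1
  | 5 => 1
  | 6 => 1
  | 7 => 1
  | 8 => 2
  | 9 => 1
  | 10 => 3
  | 11 => 4
  | 12 => 3
  | 13 => 7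
  | 14 => 7
  | 15 => 8
  | 16 => 14
  | 17 => 14
  | _ => 0

lemma has_tab : ∀ N : ℕ, N ≤ 17 → Has N (tab N) := by
  intro N
  induction N using Nat.strong_induction_on with
  | _ N ih =>
  intro hN
  by_cases h0 : N = 0
  · subst h0
    exact has_one
  have h1 := comb N (fun b => if 2 * b + 1 ≤ N then tab (N - (2 * b + 1)) else 0) (by
    intro b _
    by_cases h : 2 * b + 1 ≤ N
    · right
      simp only [if_pos h]
      exact ⟨h, ih _ (by omega) (by omega)⟩
    · left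
      simp only [if_neg h])
  have h2 : ∑ b ∈ B5, (if 2 * b + 1 ≤ N then tab (N - (2 * b + 1)) else 0) = tab N := by
    clear h1 ih
    interval_cases N <;> first | exact absurd rfl h0 | rfl
  rwa [h2] at h1

lemma has_grow : ∀ N : ℕ, 5 ≤ N → ∃ m : ℕ, Has N m ∧ (129 / 100 : ℝ) ^ N ≤ 10 * m := by
  intro N
  induction N using Nat.strong_induction_on with
  | _ N ih =>
  intro hN
  by_cases h17 : N ≤ 17
  · refine ⟨tab N, has_tab N h17, ?_⟩
    clear ih
    interval_cases N <;> norm_num [tab]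
  · obtain ⟨k, rfl⟩ : ∃ k, N = k + 13 := ⟨N - 13, by omega⟩
    obtain ⟨m1, a1, b1⟩ := ih (k + 10) (by omega) (by omega)
    obtain ⟨m2, a2, b2⟩ := ih (k + 8) (by omega) (by omega)
    obtain ⟨m3, a3, b3⟩ := ih (k + 6) (by omega) (by omega)
    obtain ⟨m4, a4, b4⟩ := ih (k + 2) (by omega) (by omega)
    obtain ⟨m5, a5, b5⟩ := ih k (by omega) (by omega)
    set m : ℕ → ℕ := fun b => if b = 1 then m1 else if b = 2 then m2 else if b = 3 then m3 else
      if b = 5 then m4 else m5 with hm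
    have h1 := comb (k + 13) m (by
      intro b hb
      right
      simp only [B5, mem_insert, mem_singleton] at hb
      rcases hb with rfl | rfl | rfl | rfl | rfl
      · exact ⟨by omega, by simpa [hm] using a1⟩
      · exact ⟨by omega, by simpa [hm] using a2⟩
      · exact ⟨by omega, by simpa [hm] using a3⟩
      · exact ⟨by omega, by simpa [hm] using a4⟩
      · exact ⟨by omega, by simpa [hm] using a5⟩)
    have h2 : ∑ b ∈ B5, m b = m1 + m2 + m3 + m4 + m5 := by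
      simp [B5, hm]
      ring
    rw [h2] at h1
    refine ⟨_, h1, ?_⟩
    push_cast
    have h3 : (129 / 100 : ℝ) ^ (k + 13) ≤ (129 / 100 : ℝ) ^ (k + 10) + (129 / 100 : ℝ) ^ (k + 8) +
        (129 / 100 : ℝ) ^ (k + 6) + (129 / 100 : ℝ) ^ (k + 2) + (129 / 100 : ℝ) ^ k := by
      have h4 : (0 : ℝ) < (129 / 100 : ℝ) ^ k := by positivity
      have h5 : (129 / 100 : ℝ) ^ 13 ≤ (129 / 100 : ℝ) ^ 10 + (129 / 100 : ℝ) ^ 8 +
        (129 / 100 : ℝ) ^ 6 + (129 / 100 : ℝ) ^ 2 + 1 := by norm_num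
      have h6 := mul_le_mul_of_nonneg_left h5 h4.le
      simp only [pow_add]
      linarith
    linarith

lemma srt_const (c : ℕ) : ∀ w : List ℕ, Srt (fun _ => c) w
  | [] => trivial
  | _ :: w => ⟨fun _ _ => le_rfl, srt_const c w⟩

/-- **Exponential growth.** -/
theorem growth (N : ℕ) (hN : 5 ≤ N) :
    (129 / 100 : ℝ) ^ N ≤ 10 * ∑ n ∈ range (N / 2 + 1), (Module.finrank ℚ (U (N - 2 * n) n) : ℝ) := by
  classical
  obtain ⟨m, ⟨F, hF, hc⟩, hm⟩ := has_grow N hN
  refine hm.trans ?_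
  refine mul_le_mul_of_nonneg_left ?_ (by norm_num)
  rw [← hc]
  have h1 : F.card = ∑ n ∈ range (N / 2 + 1), (F.filter fun w => w.sum = n).card :=
    card_eq_sum_card_fiberwise fun w hw => by
      have := (hF w hw).2
      rw [mem_coe, mem_range]
      omega
  rw [h1]
  push_cast
  refine sum_le_sum fun n hn => ?_
  rw [mem_range] at hn
  norm_cast
  refine card_le 3 Nat.prime_three (B5 : Set ℕ) (fun _ => 0) ?_ _ _ _ ?_ ?_
  · intro a ha b hb hab _
    simp only [B5, coe_insert, coe_singleton, Set.mem_insert_iff, Set.mem_singleton_iff] at ha hb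
    rcases ha with rfl | rfl | rfl | rfl | rfl <;> rcases hb with rfl | rfl | rfl | rfl | rfl <;>
      first | exact absurd rfl hab | decide
  · intro w hw
    rw [mem_filter] at hw
    obtain ⟨h1, h2⟩ := hF w hw.1
    exact ⟨by omega, h1, srt_const 0 w⟩
  · intro w hw
    rw [mem_filter] at hw
    obtain ⟨h1, h2⟩ := hF w hw.1
    refine ⟨hw.2, fun x hx => ?_⟩
    have := h1 x hx
    simp only [B5, mem_insert, mem_singleton] at this
    omega

end Run7.h102.DG
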