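import Pool.Agent.Run7.h102.DG.Anti

/-!
# Freeness for antichains of the digitwise order
-/

set_option autoImplicit false

namespace Run7.h102.DG

open Finset Pool.Agent.H777R4.DM
open Pool.Agent.N568.BK (AR cR cR_rat)
open Pool.Agent.N568.DSF
open Pool.Agent.H861R3.DM.LeadN (evN PhiN_wd)

attribute [local instance 100] LieRing.ofAssociativeRing

lemma srt_zero : ∀ w : List ℕ, Srt (fun _ => 0) w
  | [] => trivial
  | _ :: w => ⟨fun _ _ => le_rfl, srt_zero w⟩

/-- **Main theorem.** -/
theorem main (p : ℕ) (hpp : p.Prime) (n : ℕ) (b : Fin n → ℕ) (hb : ∀ i, 1 ≤ b i)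
    (hdv : ∀ i j, b i < b j → p ∣ (2 * b j).choose (2 * b i)) (hbinj : Function.Injective b)
    (ψ : Fin n → A) (hL : ∀ i, ψ i ∈ LieX)
    (hhom : ∀ i u, co (ψ i) u ≠ 0 → u.length = 2 * b i + 1)
    (hne : ∀ i, co (ψ i) (wordX [2 * b i]) ≠ 0) : Function.Injective (PhiN ψ) := by
  classical
  rw [← LinearMap.ker_eq_bot, LinearMap.ker_eq_bot']
  intro P hP
  -- all coefficients vanish
  suffices h : ∀ r : ℕ, ∀ W : List (Fin n), W.length = r → co P W = 0 by
    exact al_ext fun W => by rw [h W.length W rfl, co_zero]
  intro r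
  induction r using Nat.strong_induction_on with
  | _ r ih =>
  intro W0 hW0
  set κ : List (Fin n) → ℚ := fun W => (W.map fun i => co (ψ i) (wordX [2 * b i])).prod with hκ
  have hκ0 : ∀ W, κ W ≠ 0 := by
    intro W
    rw [hκ]
    simp only
    apply List.prod_ne_zero
    intro h
    rw [List.mem_map] at h
    obtain ⟨i, _, hi⟩ := h
    exact hne i hi
  set S : Finset (List (Fin n)) := (P.coeff.support.image FreeMonoid.toList).filter fun W => W.length = r
    with hS
  -- the coefficients of `PhiN ψ P`
  have hsum : ∀ e : List ℕ, e.length = r → ∑ W ∈ S, co P W * κ W * cR ℚ (W.map b) e = 0 := by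
    intro e he
    have h1 : co (PhiN ψ P) (wordX e) = 0 := by rw [hP, co_zero]
    rw [Lead2.expand P, map_sum, Lead2.co_sum] at h1
    rw [← h1, hS, sum_filter, sum_image (fun x _ y _ h => FreeMonoid.toList.injective h)]
    refine sum_congr rfl fun m hm => ?_
    rw [map_smul, co_smul, PhiN_wd]
    by_cases h2 : (FreeMonoid.toList m).length = r
    · rw [if_pos h2, evN_eq ψ b hb hL hhom (FreeMonoid.toList m) e (by rw [he, h2])]
      ring
    · rw [if_neg h2]
      rcases Nat.lt_or_gt_of_ne h2 with h3 | h3
      · rw [ih _ h3 _ rfl, zero_mul]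
      · have h4 : co (evN ψ (FreeMonoid.toList m)) (wordX e) = 0 := by
          by_contra h5
          have := evN_Dp ψ b hb hL hhom _ _ h5
          rw [wordX_count, he] at this
          omega
        rw [h4, mul_zero]
  by_cases hmem : W0 ∈ S
  · set lam : List ℕ → ℚ := fun w => ∑ W ∈ S, if W.map b = w then co P W * κ W else 0 with hlam
    have h1 := indep_Q p hpp (Set.range b) (fun _ => 0) (by
      rintro _ ⟨i, rfl⟩ _ ⟨j, rfl⟩ hij _
      rcases lt_or_gt_of_ne hij with h | h
      · exact hdv i j h
      · rw [Nat.choose_eq_zero_of_lt (by omega)]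
        exact dvd_zero p) r (S.image (List.map b)) (by
      intro w hw
      rw [mem_image] at hw
      obtain ⟨W, hW, rfl⟩ := hw
      rw [hS, mem_filter] at hW
      refine ⟨by rw [List.length_map]; exact hW.2, ?_, srt_zero _⟩
      intro x hx
      rw [List.mem_map] at hx
      obtain ⟨i, _, rfl⟩ := hx
      exact ⟨i, rfl⟩) lam (by
      intro w hw
      rw [mem_image] at hw
      obtain ⟨W1, hW1, rfl⟩ := hw
      rw [hS, mem_filter] at hW1
      have h2 := hsum (dbl (W1.map b)) (by
        rw [dbl_length, List.length_map]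
        exact hW1.2)
      rw [← h2, sum_image (fun x _ y _ h => List.map_injective_iff.mpr hbinj h)]
      refine sum_congr rfl fun W hW => ?_
      congr 1
      rw [hlam]
      simp only
      rw [sum_eq_single W]
      · rw [if_pos rfl]
      · intro W' _ hne'
        rw [if_neg]
        exact fun h => hne' (List.map_injective_iff.mpr hbinj h)
      · exact fun h => absurd hW h)
    have h2 := h1 (W0.map b) (mem_image_of_mem _ hmem)
    rw [hlam] at h2
    simp only at h2
    rw [sum_eq_single W0] at h2
    · rw [if_pos rfl] at h2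
      exact (mul_eq_zero.mp h2).resolve_right (hκ0 W0)
    · intro W' _ hne'
      rw [if_neg]
      exact fun h => hne' (List.map_injective_iff.mpr hbinj h)
    · exact fun h => absurd hmem h
  · by_contra h
    apply hmem
    rw [hS, mem_filter]
    refine ⟨?_, hW0⟩
    rw [mem_image]
    refine ⟨FreeMonoid.ofList W0, ?_, rfl⟩
    rw [Finsupp.mem_support_iff]
    exact h

end Run7.h102.DG
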