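import Pool.Agent.Run7.h102.DG.Anti

/-!
# Sorted words are linearly independent, as functions
-/

set_option autoImplicit false

namespace Run7.h102.DG

open Finset Pool.Agent.N568.BK

/-- the words are independent -/
theorem indep_word' (p : ℕ) (hp : p.Prime) (T : Set ℕ) (σ : ℕ → ℕ)
    (hσ : ∀ a ∈ T, ∀ b ∈ T, a ≠ b → σ b ≤ σ a → p ∣ (2 * b).choose (2 * a)) (d : ℕ)
    (F : Finset (List ℕ)) (hF : ∀ w ∈ F, w.length = d ∧ (∀ x ∈ w, x ∈ T) ∧ Srt σ w)
    (lam : List ℕ → ℚ) (h : ∀ ys : List ℚ, ys.length = d → ∑ w ∈ F, lam w * word w ys = 0) :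
    ∀ w ∈ F, lam w = 0 := by
  classical
  refine indep_Q p hp T σ hσ d F hF lam ?_
  intro w hw
  set K := (2 * ∑ w ∈ F, w.sum) + (dbl w).sum + 1 with hK
  have hle : ∀ w ∈ F, 2 * w.sum < K := by
    intro w hw
    have := Finset.single_le_sum (f := fun w : List ℕ => w.sum) (fun _ _ => Nat.zero_le _) hw
    omega
  have hPs : ∀ (F' : Finset (List ℕ)) (ys : List ℚ), P K (fun e => ∑ b ∈ F', lam b * c b e) ys =
      ∑ b ∈ F', lam b * P K (c b) ys := by
    intro F' ys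
    induction F' using Finset.induction_on with
    | empty => simp [P_zero]
    | insert a s ha ih =>
      have h4 : (fun e : List ℕ => ∑ b ∈ insert a s, lam b * c b e) =
          fun e => (fun e => lam a * c a e) e + (fun e => ∑ b ∈ s, lam b * c b e) e := by
        funext e
        rw [sum_insert ha]
      rw [h4, P_add, ih, P_smul, sum_insert ha]
  have h1 := uniq K d (fun e => ∑ w' ∈ F, lam w' * c w' e) ∅ (by
    intro ys hys _ _
    rw [hPs, ← h ys hys]
    refine Finset.sum_congr rfl fun w' hw' => ?_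
    rw [word_eq w' ys K (by rw [hys, (hF w' hw').1]) (hle w' hw')]) (dbl w) (by
    rw [dbl_length, (hF w hw).1]) (by
    intro k hk
    have := List.single_le_sum (l := dbl w) (fun _ _ => Nat.zero_le _) k hk
    omega)
  rw [← h1]
  refine Finset.sum_congr rfl fun w' _ => ?_
  rw [cR_rat]

theorem indep_wd' (p : ℕ) (hp : p.Prime) (T : Set ℕ) (σ : ℕ → ℕ)
    (hσ : ∀ a ∈ T, ∀ b ∈ T, a ≠ b → σ b ≤ σ a → p ∣ (2 * b).choose (2 * a)) (d : ℕ)
    (F : Finset (List ℕ)) (hF : ∀ w ∈ F, w.length = d ∧ (∀ x ∈ w, x ∈ T) ∧ Srt σ w)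
    (lam : List ℕ → ℚ) (h : ∀ y : ℕ → ℚ, ∑ w ∈ F, lam w * wd w y = 0) :
    ∀ w ∈ F, lam w = 0 := by
  refine indep_word' p hp T σ hσ d F hF lam ?_
  intro ys hys
  rw [← h (vec ys)]
  refine Finset.sum_congr rfl fun w hw => ?_
  rw [wd_eq, (hF w hw).1, ← hys, tl_vec]

end Run7.h102.DG
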